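import Pool.Agent.Helper99.SC.Logic

/-!
# Satisfiability is NP-hard (module SL3 of the project SC)
-/

set_option autoImplicit false
set_option linter.all false

namespace Pool.Agent.Helper99.SC

open Pool.Agent.Helper96 Pool.Agent.Helper20.Flip.SubSum

namespace Cnf

/-- default variable -/
def dv : Vr := ((0, 0), [])

/-- the clause of a cell -/
def cellClause (V : List Vr) (p : Cl) : List (ℕ × Bool) :=
  ((List.range V.length).filter fun i => decide ((V.getD i dv).1 = p)).map fun i => (i, true)

/-- two entries of the ends of a link which do not fit -/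
def bad (V : List Vr) (e : Cn) (i j : ℕ) : Bool :=
  decide ((V.getD i dv).1 = e.1) && decide ((V.getD j dv).1 = e.2.2) &&
    !decide ((V.getD i dv).2.getD e.2.1 0 = (V.getD j dv).2.getD 0 0)

/-- the clauses of a link -/
def linkClauses (V : List Vr) (e : Cn) : List (List (ℕ × Bool)) :=
  (List.range V.length).flatMap fun i =>
    ((List.range V.length).filter fun j => bad V e i j).map fun j => [(i, false), (j, false)]

/-- all clauses -/
def clauses (C : List Cl) (V : List Vr) (E : List Cn) : List (List (ℕ × Bool)) :=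
  (C.map fun p => cellClause V p) ++ E.flatMap fun e => linkClauses V e

theorem clauses_lt {C : List Cl} {V : List Vr} {E : List Cn} :
    ∀ c ∈ clauses C V E, ∀ l ∈ c, l.1 < V.length := by
  intro c hc l hl
  rcases List.mem_append.1 hc with hc | hc
  · obtain ⟨p, _, rfl⟩ := List.mem_map.1 hc
    obtain ⟨i, hi, rfl⟩ := List.mem_map.1 hl
    exact List.mem_range.1 (List.mem_filter.1 hi).1
  · obtain ⟨e, _, hc⟩ := List.mem_flatMap.1 hc
    obtain ⟨i, hi, hc⟩ := List.mem_flatMap.1 hc
    obtain ⟨j, hj, rfl⟩ := List.mem_map.1 hc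
    have hj' := List.mem_range.1 (List.mem_filter.1 hj).1
    have hi' := List.mem_range.1 hi
    simp only [List.mem_cons, List.not_mem_nil, or_false] at hl
    rcases hl with rfl | rfl
    · exact hi'
    · exact hj'

theorem sat_iff {C : List Cl} {tb : Cl → List (List ℕ)} {lk : Cl → List Cn}
    (hlk : ∀ p ∈ C, ∀ e ∈ lk p, e.1 = p ∧ e.2.1 ≠ 0 ∧ e.2.2 ∈ C ∧ e.2.2 ≠ p) :
    (∃ κ : Cl → List ℕ, (∀ p ∈ C, κ p ∈ tb p) ∧
      ∀ p ∈ C, ∀ e ∈ lk p, (κ p).getD e.2.1 0 = (κ e.2.2).getD 0 0) ↔
    ∃ β : ℕ → Bool, ∀ c ∈ clauses C (vars C tb) (C.flatMap lk), ∃ l ∈ c, β l.1 = l.2 := by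
  set V := vars C tb with hV
  constructor
  · rintro ⟨κ, h1, h2⟩
    classical
    refine ⟨fun i => decide ((V.getD i dv).2 = κ (V.getD i dv).1), ?_⟩
    intro c hc
    rcases List.mem_append.1 hc with hc | hc
    · obtain ⟨p, hp, rfl⟩ := List.mem_map.1 hc
      have h3 : (p, κ p) ∈ V := mem_vars.2 ⟨hp, h1 p hp⟩
      obtain ⟨i, hi, h4⟩ := List.getElem_of_mem h3
      have h5 : V.getD i dv = (p, κ p) := by
        rw [List.getD_eq_getElem?_getD, List.getElem?_eq_getElem hi, h4]; rfl
      refine ⟨(i, true), List.mem_map.2 ⟨i, List.mem_filter.2 ⟨List.mem_range.2 hi, ?_⟩, rfl⟩, ?_⟩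
      · rw [h5]; simp
      · simp only [h5, decide_true]
    · obtain ⟨e, he, hc⟩ := List.mem_flatMap.1 hc
      obtain ⟨i, hi, hc⟩ := List.mem_flatMap.1 hc
      obtain ⟨j, hj, rfl⟩ := List.mem_map.1 hc
      have hb := (List.mem_filter.1 hj).2
      obtain ⟨p, hp, he'⟩ := List.mem_flatMap.1 he
      have h4 := h2 p hp e he'
      obtain ⟨h5, -, -, -⟩ := hlk p hp e he'
      simp only [bad, Bool.and_eq_true, decide_eq_true_eq, Bool.not_eq_true',
        decide_eq_false_iff_not] at hb
      obtain ⟨⟨hb1, hb2⟩, hb3⟩ := hb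
      by_contra hcon
      push Not at hcon
      have h6 := hcon (i, false) (by simp)
      have h7 := hcon (j, false) (by simp)
      simp only [ne_eq, Bool.not_eq_false, decide_eq_true_eq] at h6 h7
      apply hb3
      rw [h6, h7, hb1, hb2, h5]
      exact h4
  · rintro ⟨β, hβ⟩
    have h1 : ∀ p ∈ C, ∃ i, i < V.length ∧ (V.getD i dv).1 = p ∧ β i = true := by
      intro p hp
      obtain ⟨l, hl, h2⟩ := hβ (cellClause V p)
        (List.mem_append.2 (Or.inl (List.mem_map.2 ⟨p, hp, rfl⟩)))
      obtain ⟨i, hi, rfl⟩ := List.mem_map.1 hl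
      obtain ⟨h3, h4⟩ := List.mem_filter.1 hi
      exact ⟨i, List.mem_range.1 h3, by simpa using h4, h2⟩
    choose! x hx using h1
    refine ⟨fun p => (V.getD (x p) dv).2, ?_, ?_⟩
    · intro p hp
      obtain ⟨h3, h4, h5⟩ := hx p hp
      have h6 : V.getD (x p) dv ∈ V := by
        rw [List.getD_eq_getElem?_getD, List.getElem?_eq_getElem h3]
        exact List.getElem_mem h3
      have h7 := (mem_vars.1 h6).2
      rw [h4] at h7
      exact h7
    · intro p hp e he
      obtain ⟨h3, -, h5, -⟩ := hlk p hp e he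
      obtain ⟨a1, a2, a3⟩ := hx p hp
      obtain ⟨b1, b2, b3⟩ := hx _ h5
      by_contra hne
      have hb : bad V e (x p) (x e.2.2) = true := by
        simp only [bad, Bool.and_eq_true, decide_eq_true_eq, Bool.not_eq_true',
          decide_eq_false_iff_not]
        exact ⟨⟨by rw [a2, h3], b2⟩, hne⟩
      obtain ⟨l, hl, h6⟩ := hβ [(x p, false), (x e.2.2, false)]
        (List.mem_append.2 (Or.inr (List.mem_flatMap.2 ⟨e, List.mem_flatMap.2 ⟨p, hp, he⟩,
          List.mem_flatMap.2 ⟨x p, List.mem_range.2 a1, List.mem_map.2 ⟨x e.2.2,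
            List.mem_filter.2 ⟨List.mem_range.2 b1, hb⟩, rfl⟩⟩⟩)))
      simp only [List.mem_cons, List.not_mem_nil, or_false] at hl
      rcases hl with rfl | rfl
      · rw [a3] at h6; exact absurd h6 (by simp)
      · rw [b3] at h6; exact absurd h6 (by simp)

section poly

variable {α : Type} [Enc α]

theorem poly_getV {V : α → List Vr} {i : α → ℕ} (hV : Poly V) (hi : Poly i) :
    Poly (fun a => (V a).getD (i a) dv) :=
  Helper96.Poly.listGetD hi hV (Helper96.Poly.const dv)

theorem poly_cellClause {V : α → List Vr} {p : α → Cl} (hV : Poly V) (hp : Poly p) :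
    Poly (fun a => cellClause (V a) (p a)) := by
  unfold cellClause
  have h1 : Poly (fun q : α × ℕ => ((V q.1).getD q.2 dv).1) :=
    Helper96.Poly.fst (poly_getV (hV.comp (f := fun q : α × ℕ => q.1) (by fun_prop)) (by fun_prop))
  have h2 : Poly (fun a => (List.range (V a).length).filter
      fun i => decide (((V a).getD i dv).1 = p a)) :=
    Helper96.Poly.filter (h := fun a i => decide (((V a).getD i dv).1 = p a)) (by fun_prop)
      (by fun_prop)
  exact Helper96.Poly.map (h := fun _ i => (i, true)) h2 (by fun_prop)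

theorem poly_bad {V : α → List Vr} {e : α → Cn} {i j : α → ℕ} (hV : Poly V) (he : Poly e)
    (hi : Poly i) (hj : Poly j) : Poly (fun a => bad (V a) (e a) (i a) (j a)) := by
  have h1 := poly_getV hV hi
  have h2 := poly_getV hV hj
  unfold bad
  fun_prop

theorem poly_linkClauses {V : α → List Vr} {e : α → Cn} (hV : Poly V) (he : Poly e) :
    Poly (fun a => linkClauses (V a) (e a)) := by
  unfold linkClauses
  have h1 : Poly (fun q : α × ℕ => (List.range (V q.1).length).filter
      fun j => bad (V q.1) (e q.1) q.2 j) :=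
    Helper96.Poly.filter (h := fun (q : α × ℕ) j => bad (V q.1) (e q.1) q.2 j)
      (by fun_prop) (poly_bad (by fun_prop) (by fun_prop) (by fun_prop) (by fun_prop))
  exact Helper96.Poly.flatMap (h := fun a i => ((List.range (V a).length).filter
      fun j => bad (V a) (e a) i j).map fun j => [(i, false), (j, false)]) (by fun_prop)
    (Helper96.Poly.map (h := fun (q : α × ℕ) j => [(q.2, false), (j, false)]) h1 (by fun_prop))

theorem poly_clauses {C : α → List Cl} {V : α → List Vr} {E : α → List Cn} (hC : Poly C)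
    (hV : Poly V) (hE : Poly E) : Poly (fun a => clauses (C a) (V a) (E a)) := by
  unfold clauses
  have h1 : Poly (fun a => (C a).map fun p => cellClause (V a) p) :=
    Helper96.Poly.map (h := fun a p => cellClause (V a) p) hC
      (poly_cellClause (by fun_prop) (by fun_prop))
  have h2 : Poly (fun a => (E a).flatMap fun e => linkClauses (V a) e) :=
    Helper96.Poly.flatMap (h := fun a e => linkClauses (V a) e) hE
      (poly_linkClauses (by fun_prop) (by fun_prop))
  exact Helper96.Poly.append h1 h2

end poly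

end Cnf

open Cnf in
/-- MODULE SL3: satisfiability is NP-hard -/
theorem sl_cnf : M_cnf := by
  intro L hL
  obtain ⟨R, k, hR, hK⟩ := (Pool.Agent.Helper69.inNP_iff L).1 hL
  obtain ⟨G, iniV, acc, Nf, hG, hini, hNf, hNf', hver⟩ := Pool.Agent.Helper4.exists_verifier hR hK
  set C : List Bool → List Cl := fun w => cells (Nf w) with hC
  set V : List Bool → List Vr := fun w => vars (C w) (tb G iniV acc (Nf w) w) with hV
  set E : List Bool → List Cn := fun w => (C w).flatMap lk with hE
  have pC : Poly C := poly_cells hNf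
  have pV : Poly V := by
    refine poly_vars (t := fun w p => tb G iniV acc (Nf w) w p) pC ?_
    exact poly_tb G iniV acc (hNf.comp (f := fun q : List Bool × Cl => q.1) (by fun_prop))
      (by fun_prop) (by fun_prop)
  have pE : Poly E := Helper96.Poly.flatMap (h := fun _ p => lk p) pC (poly_lk (by fun_prop))
  refine ⟨fun w => ((V w).length, clauses (C w) (V w) (E w)), ?_, ?_, ?_⟩
  · exact Helper96.Poly.prodMk (Helper96.Poly.length pV) (poly_clauses pC pV pE)
  · intro w
    exact clauses_lt
  · intro w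
    have hN : 0 < Nf w := by have := hNf' w; omega
    rw [hver w, ← grid_iff hG hini acc hN w]
    exact sat_iff lk_ok

end Pool.Agent.Helper99.SC
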